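import Mathlib

/-!
# Project EX: measures which are compatible with a countable family of local identifications
-/

set_option autoImplicit false

open Set Filter Topology MeasureTheory

noncomputable section

namespace Pool.Agent.Y80.EX

/-- comparison of the measures of two sections -/
theorem glue_le {X Q : Type} [TopologicalSpace X] [SecondCountableTopology X] [MeasurableSpace X]
    [BorelSpace X] (O : Set X) (q : X → Q) (ν : Measure X)
    (h : ∀ b ∈ O, ∀ b' ∈ O, q b = q b' → ∃ (U V : Set X) (A : X → X), IsOpen U ∧ IsOpen V ∧ b ∈ U ∧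
      b' ∈ V ∧ ContinuousOn A U ∧ (∀ y ∈ U, A y ∈ V ∧ q (A y) = q y) ∧ InjOn q V ∧
      ∀ C : Set X, MeasurableSet C → C ⊆ U → MeasurableSet (A '' C) ∧ ν (A '' C) = ν C)
    (B B' : Set X) (hB : MeasurableSet B) (hB' : MeasurableSet B') (hBO : B ⊆ O) (hBO' : B' ⊆ O)
    (hi : InjOn q B) (himg : q '' B ⊆ q '' B') : ν B ≤ ν B' := by
  classical
  rcases B.eq_empty_or_nonempty with rfl | ⟨b0, hb0⟩
  · simp
  have h' : ∀ x : {x : X × X // x.1 ∈ O ∧ x.2 ∈ O ∧ q x.1 = q x.2}, ∃ (U V : Set X) (A : X → X),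
      IsOpen U ∧ IsOpen V ∧ x.1.1 ∈ U ∧
      x.1.2 ∈ V ∧ ContinuousOn A U ∧ (∀ y ∈ U, A y ∈ V ∧ q (A y) = q y) ∧ InjOn q V ∧
      ∀ C : Set X, MeasurableSet C → C ⊆ U → MeasurableSet (A '' C) ∧ ν (A '' C) = ν C := fun x =>
    h x.1.1 x.2.1 x.1.2 x.2.2.1 x.2.2.2
  choose U V A hU hV hbU hbV hA hAV hqV hC using h'
  obtain ⟨T, hT, hTU⟩ := TopologicalSpace.isOpen_iUnion_countable
    (fun x : {x : X × X // x.1 ∈ O ∧ x.2 ∈ O ∧ q x.1 = q x.2} => U x ×ˢ V x)
    (fun x => (hU x).prod (hV x))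
  have hmem : ∀ x : {x : X × X // x.1 ∈ O ∧ x.2 ∈ O ∧ q x.1 = q x.2}, ∃ y ∈ T, x.1 ∈ U y ×ˢ V y := by
    intro x
    have h1 : x.1 ∈ ⋃ i, U i ×ˢ V i := mem_iUnion.2 ⟨x, ⟨hbU x, hbV x⟩⟩
    rw [← hTU] at h1
    simpa only [mem_iUnion, exists_prop] using h1
  have hTne : T.Nonempty := by
    obtain ⟨y, hy, _⟩ := hmem ⟨(b0, b0), hBO hb0, hBO hb0, rfl⟩
    exact ⟨y, hy⟩
  obtain ⟨f, hf⟩ := hT.exists_eq_range hTne
  set C : ℕ → Set X := fun n => B ∩ {b | b ∈ U (f n) ∧ A (f n) b ∈ B'} with hCdef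
  have hCm : ∀ n, MeasurableSet (C n) := by
    intro n
    refine hB.inter ?_
    have h1 : Measurable ((U (f n)).piecewise (A (f n)) (fun _ => b0)) :=
      ContinuousOn.measurable_piecewise (hA (f n)) continuousOn_const (hU (f n)).measurableSet
    have h2 : {b | b ∈ U (f n) ∧ A (f n) b ∈ B'} =
        U (f n) ∩ ((U (f n)).piecewise (A (f n)) (fun _ => b0)) ⁻¹' B' := by
      ext b
      simp only [mem_ofPred_eq, mem_inter_iff, mem_preimage]
      constructor
      · rintro ⟨h3, h4⟩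
        refine ⟨h3, ?_⟩
        rw [Set.piecewise_eq_of_mem _ _ _ h3]
        exact h4
      · rintro ⟨h3, h4⟩
        rw [Set.piecewise_eq_of_mem _ _ _ h3] at h4
        exact ⟨h3, h4⟩
    rw [h2]
    exact (hU (f n)).measurableSet.inter (h1 hB')
  have hDm : ∀ n, MeasurableSet (disjointed C n) := fun n => MeasurableSet.disjointed hCm n
  have hDdisj : Pairwise (Function.onFun Disjoint (disjointed C)) := disjoint_disjointed C
  have hDC : ∀ n, disjointed C n ⊆ C n := fun n => disjointed_subset C n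
  have hDU : ⋃ n, disjointed C n = B := by
    rw [iUnion_disjointed]
    apply Subset.antisymm
    · exact iUnion_subset fun n => inter_subset_left
    · intro b hb
      obtain ⟨b', hb', hbq⟩ := himg (mem_image_of_mem q hb)
      obtain ⟨y, hy, hyU⟩ := hmem ⟨(b, b'), hBO hb, hBO' hb', hbq.symm⟩
      rw [hf] at hy
      obtain ⟨n, rfl⟩ := hy
      obtain ⟨h1, h2⟩ := hyU
      have h3 := hAV (f n) b h1
      have h4 : A (f n) b = b' := hqV (f n) h3.1 h2 (h3.2.trans hbq.symm)
      refine mem_iUnion.2 ⟨n, hb, h1, ?_⟩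
      rw [h4]
      exact hb'
  have hDU' : ∀ n, disjointed C n ⊆ U (f n) := fun n b hb => (hDC n hb).2.1
  have hdisj' : Pairwise (Function.onFun Disjoint fun n => A (f n) '' disjointed C n) := by
    intro n m hnm
    rw [Function.onFun, Set.disjoint_left]
    rintro _ ⟨b, hb, rfl⟩ ⟨c, hc, hbc⟩
    have h1 := (hAV (f n) b (hDU' n hb)).2
    have h2 := (hAV (f m) c (hDU' m hc)).2
    rw [hbc, h1] at h2
    have h3 : b = c := hi (hDC n hb).1 (hDC m hc).1 h2
    rw [← h3] at hc
    exact (Set.disjoint_left.1 (hDdisj hnm)) hb hc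
  calc ν B = ν (⋃ n, disjointed C n) := by rw [hDU]
    _ = ∑' n, ν (disjointed C n) := measure_iUnion hDdisj hDm
    _ = ∑' n, ν (A (f n) '' disjointed C n) :=
        tsum_congr fun n => ((hC (f n) _ (hDm n) (hDU' n)).2).symm
    _ = ν (⋃ n, A (f n) '' disjointed C n) :=
        (measure_iUnion hdisj' fun n => (hC (f n) _ (hDm n) (hDU' n)).1).symm
    _ ≤ ν B' := by
        apply measure_mono
        apply iUnion_subset
        rintro n _ ⟨b, hb, rfl⟩
        exact (hDC n hb).2.2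

/-- two sections over the same set have the same measure -/
theorem glue {X Q : Type} [TopologicalSpace X] [SecondCountableTopology X] [MeasurableSpace X]
    [BorelSpace X] (O : Set X) (q : X → Q) (ν : Measure X)
    (h : ∀ b ∈ O, ∀ b' ∈ O, q b = q b' → ∃ (U V : Set X) (A : X → X), IsOpen U ∧ IsOpen V ∧ b ∈ U ∧
      b' ∈ V ∧ ContinuousOn A U ∧ (∀ y ∈ U, A y ∈ V ∧ q (A y) = q y) ∧ InjOn q V ∧
      ∀ C : Set X, MeasurableSet C → C ⊆ U → MeasurableSet (A '' C) ∧ ν (A '' C) = ν C)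
    (B B' : Set X) (hB : MeasurableSet B) (hB' : MeasurableSet B') (hBO : B ⊆ O) (hBO' : B' ⊆ O)
    (hi : InjOn q B) (hi' : InjOn q B') (himg : q '' B = q '' B') : ν B = ν B' :=
  le_antisymm (glue_le O q ν h B B' hB hB' hBO hBO' hi himg.subset)
    (glue_le O q ν h B' B hB' hB hBO' hBO hi' himg.symm.subset)

/-- the image measure under a local diffeomorphism with the right Jacobian determinant -/
theorem jac_image {E : Type} [NormedAddCommGroup E] [NormedSpace ℝ E] [FiniteDimensional ℝ E]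
    [MeasurableSpace E] [BorelSpace E] (μ : Measure E) [μ.IsAddHaarMeasure] (O U : Set E)
    (hO : MeasurableSet O) (w : E → ENNReal) (A : E → E) (A' : E → E →L[ℝ] E) (hU : U ⊆ O)
    (hmaps : ∀ y ∈ U, A y ∈ O) (hA : ∀ y ∈ U, HasFDerivAt A (A' y) y) (hi : InjOn A U)
    (hdet : ∀ y ∈ U, ENNReal.ofReal |(A' y).det| * w (A y) = w y) :
    ∀ C : Set E, MeasurableSet C → C ⊆ U → MeasurableSet (A '' C) ∧
      (μ.withDensity (O.indicator w)) (A '' C) = (μ.withDensity (O.indicator w)) C := by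
  intro C hC hCU
  have h1 : ∀ y ∈ C, HasFDerivWithinAt A (A' y) C y := fun y hy => (hA y (hCU hy)).hasFDerivWithinAt
  have h2 : InjOn A C := hi.mono hCU
  have h3 : MeasurableSet (A '' C) := measurable_image_of_fderivWithin hC h1 h2
  refine ⟨h3, ?_⟩
  rw [withDensity_apply _ h3, withDensity_apply _ hC,
    lintegral_image_eq_lintegral_abs_det_fderiv_mul μ hC h1 h2]
  refine setLIntegral_congr_fun hC fun y hy => ?_
  have h4 : O.indicator w (A y) = w (A y) := Set.indicator_of_mem (hmaps y (hCU hy)) w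
  have h5 : O.indicator w y = w y := Set.indicator_of_mem (hU (hCU hy)) w
  simp only [h4, h5]
  exact hdet y (hCU hy)

/-- the measure with a density on a subset -/
theorem dens_apply {E : Type} [MeasurableSpace E] (μ : Measure E) (O : Set E) (w : E → ENNReal)
    (B : Set E) (hB : MeasurableSet B) (hBO : B ⊆ O) :
    (μ.withDensity (O.indicator w)) B = ∫⁻ p in B, w p ∂μ := by
  rw [withDensity_apply _ hB]
  refine setLIntegral_congr_fun hB fun y hy => ?_
  exact Set.indicator_of_mem (hBO hy) w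

end Pool.Agent.Y80.EX
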