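import Pool.Agent.Y262.EX.Stm
import Pool.Agent.Y80.EX.Glue

/-!
# Project EX, parts LIOUEX and AREAEX: existence of the Liouville measure and of the area
-/

set_option autoImplicit false

open Set Filter Topology MeasureTheory
open scoped ContDiff

noncomputable section

namespace Pool.Agent.Y80.EX

open Pool.Agent.Y262.EG Pool.Agent.Y262.EX

/-! ### Determinants -/

theorem det_smul_one (c : ℂ) : (c • (1 : ℂ →L[ℝ] ℂ)).det = Complex.normSq c := by
  have h : ((c • (1 : ℂ →L[ℝ] ℂ) : ℂ →L[ℝ] ℂ) : ℂ →ₗ[ℝ] ℂ) = LinearMap.mul ℝ ℂ c := by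
    ext <;> simp
  unfold ContinuousLinearMap.det
  rw [h]
  exact (Algebra.norm_apply ℝ c).symm.trans (Algebra.norm_complex_apply c)

/-- `(z, t) ↦ (c z, ℓ z + t)` -/
def Fm (c : ℂ) (l : ℂ →ₗ[ℝ] ℝ) : (ℂ × ℝ) →ₗ[ℝ] (ℂ × ℝ) :=
  LinearMap.prod ((LinearMap.mul ℝ ℂ c).comp (LinearMap.fst ℝ ℂ ℝ))
    (l.comp (LinearMap.fst ℝ ℂ ℝ) + LinearMap.snd ℝ ℂ ℝ)

theorem Fm_apply (c : ℂ) (l : ℂ →ₗ[ℝ] ℝ) (v : ℂ × ℝ) : Fm c l v = (c * v.1, l v.1 + v.2) := rfl

theorem det_Fm (c : ℂ) (l : ℂ →ₗ[ℝ] ℝ) : LinearMap.det (Fm c l) = Complex.normSq c := by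
  have h : LinearMap.toMatrix (Complex.basisOneI.prod (Module.Basis.singleton Unit ℝ))
      (Complex.basisOneI.prod (Module.Basis.singleton Unit ℝ)) (Fm c l) =
      Matrix.fromBlocks (LinearMap.toMatrix Complex.basisOneI Complex.basisOneI
        (LinearMap.mul ℝ ℂ c)) 0
        (LinearMap.toMatrix Complex.basisOneI (Module.Basis.singleton Unit ℝ) l) 1 := by
    ext i j
    rcases i with i | i <;> rcases j with j | j <;>
      simp [LinearMap.toMatrix_apply, Fm_apply]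
  rw [← LinearMap.det_toMatrix (Complex.basisOneI.prod (Module.Basis.singleton Unit ℝ)), h,
    Matrix.det_fromBlocks_zero₁₂, LinearMap.det_toMatrix, Matrix.det_one, mul_one]
  exact (Algebra.norm_apply ℝ c).symm.trans (Algebra.norm_complex_apply c)

/-- the vector `XX` in the plane -/
def cc (φ : ℂ → ℝ) (p : Y) : ℂ := (XX φ p).1

/-- the vertical parts of the frame -/
def ll (φ : ℂ → ℝ) (p : Y) : ℂ →ₗ[ℝ] ℝ :=
  (XX φ p).2 • Complex.reCLM.toLinearMap + (HH φ p).2 • Complex.imCLM.toLinearMap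

theorem Fm_eq (φ : ℂ → ℝ) (p v : Y) :
    Fm (cc φ p) (ll φ p) v = v.1.re • XX φ p + v.1.im • HH φ p + v.2 • VV := by
  rw [Fm_apply]
  apply Prod.ext
  · apply Complex.ext
    · simp [cc, XX, HH, VV]
      ring
    · simp [cc, XX, HH, VV]
      ring
  · simp [ll, XX, HH, VV]
    ring

theorem normSq_cc (φ : ℂ → ℝ) (p : Y) : Complex.normSq (cc φ p) = Real.exp (-(2 * φ p.1)) := by
  have h1 : Real.exp (-(2 * φ p.1)) = Real.exp (-φ p.1) * Real.exp (-φ p.1) := by
    rw [← Real.exp_add]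
    congr 1
    ring
  have h2 := Real.sin_sq_add_cos_sq p.2
  rw [Complex.normSq_apply, h1]
  simp only [cc, XX]
  linear_combination Real.exp (-φ p.1) * Real.exp (-φ p.1) * h2

theorem det_frame (φ : ℂ → ℝ) (p p' : Y) (L : Y →L[ℝ] Y) (hX : L (XX φ p) = XX φ p')
    (hH : L (HH φ p) = HH φ p') (hV : L VV = VV) :
    L.det * Real.exp (-(2 * φ p.1)) = Real.exp (-(2 * φ p'.1)) := by
  have h1 : (L : Y →ₗ[ℝ] Y) ∘ₗ Fm (cc φ p) (ll φ p) = Fm (cc φ p') (ll φ p') := by
    apply LinearMap.ext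
    intro v
    rw [LinearMap.comp_apply, Fm_eq, Fm_eq, map_add, map_add, map_smul, map_smul, map_smul]
    simp only [ContinuousLinearMap.coe_coe, hX, hH, hV]
  have h2 := congrArg LinearMap.det h1
  rw [LinearMap.det_comp, det_Fm, det_Fm, normSq_cc, normSq_cc] at h2
  exact h2

/-! ### Existence -/

theorem areaEx : StEtale → StAreaEx := by
  intro hE M P _ _ _ _ _ _ Ω φ pr q hU
  set w : ℂ → ENNReal := fun z => ENNReal.ofReal (Real.exp (2 * φ z)) with hw
  have hloc : ∀ b ∈ Ω, ∀ b' ∈ Ω, pr b = pr b' → ∃ (U V : Set ℂ) (A : ℂ → ℂ), IsOpen U ∧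
      IsOpen V ∧ b ∈ U ∧ b' ∈ V ∧ ContinuousOn A U ∧ (∀ y ∈ U, A y ∈ V ∧ pr (A y) = pr y) ∧
      InjOn pr V ∧ ∀ C : Set ℂ, MeasurableSet C → C ⊆ U → MeasurableSet (A '' C) ∧
        ((volume : Measure ℂ).withDensity (Ω.indicator w)) (A '' C) =
          ((volume : Measure ℂ).withDensity (Ω.indicator w)) C := by
    intro z hz z' hz' hzz
    obtain ⟨θ', r, γ, hr, hball, hdiff, hγz, hγ, -⟩ := hU.deck z hz z' hz' hzz 0
    simp only at hball hdiff hγz hγ
    obtain ⟨r', hr', hb', hi'⟩ := hU.injp z' hz'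
    obtain ⟨r'', hr'', hb'', hi''⟩ := hU.injp z hz
    have hs1 : Metric.ball z (min r r'') ⊆ Metric.ball z r :=
      Metric.ball_subset_ball (min_le_left _ _)
    have hs2 : Metric.ball z (min r r'') ⊆ Metric.ball z r'' :=
      Metric.ball_subset_ball (min_le_right _ _)
    have hUo : IsOpen (Metric.ball z (min r r'') ∩ γ ⁻¹' (Metric.ball z' r')) :=
      (hdiff.continuousOn.mono hs1).isOpen_inter_preimage Metric.isOpen_ball Metric.isOpen_ball
    refine ⟨Metric.ball z (min r r'') ∩ γ ⁻¹' (Metric.ball z' r'), Metric.ball z' r', γ, hUo,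
      Metric.isOpen_ball, ⟨Metric.mem_ball_self (lt_min hr hr''), ?_⟩, Metric.mem_ball_self hr',
      hdiff.continuousOn.mono (inter_subset_left.trans hs1),
      fun y hy => ⟨hy.2, (hγ y (hs1 hy.1)).2.1⟩, hi', ?_⟩
    · rw [mem_preimage, hγz]
      exact Metric.mem_ball_self hr'
    · refine jac_image volume Ω _ hU.opn.measurableSet w γ (fun y => deriv γ y • (1 : ℂ →L[ℝ] ℂ))
        (inter_subset_left.trans (hs1.trans hball)) (fun y hy => (hγ y (hs1 hy.1)).1) ?_ ?_ ?_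
      · intro y hy
        have h1 : DifferentiableAt ℂ γ y :=
          hdiff.differentiableAt (Metric.isOpen_ball.mem_nhds (hs1 hy.1))
        exact h1.hasDerivAt.complexToReal_fderiv
      · intro y hy y' hy' hyy
        apply hi'' (hs2 hy.1) (hs2 hy'.1)
        rw [← (hγ y (hs1 hy.1)).2.1, ← (hγ y' (hs1 hy'.1)).2.1, hyy]
      · intro y hy
        obtain ⟨-, -, h3, h4⟩ := hγ y (hs1 hy.1)
        have h5 : 0 < ‖deriv γ y‖ := norm_pos_iff.2 h3
        rw [det_smul_one, hw]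
        simp only
        rw [← ENNReal.ofReal_mul (abs_nonneg _), abs_of_nonneg (Complex.normSq_nonneg _),
          Complex.normSq_eq_norm_sq, ← h4, mul_add, Real.exp_add, two_mul (Real.log _),
          Real.exp_add, Real.exp_log h5]
        congr 1
        ring
  obtain ⟨m, hm⟩ := hE ℂ M Ω pr ((volume : Measure ℂ).withDensity (Ω.indicator w)) hU.opn hU.contp
    hU.surjp (fun p hp => by
      obtain ⟨r, hr, hb, hi⟩ := hU.injp p hp
      exact ⟨Metric.ball p r, Metric.isOpen_ball, Metric.mem_ball_self hr, hb, hi⟩)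
    (fun B B' hB hB' hBO hBO' hi hi' himg => glue Ω pr _ hloc B B' hB hB' hBO hBO' hi hi' himg)
  refine ⟨m, fun B hB hBO hi => ?_⟩
  rw [hm B hB hBO hi, dens_apply volume Ω w B hB hBO]

theorem liouEx : StEtale → StFrame → StEt → StLiouEx := by
  intro hE _ hEt M P _ _ _ _ _ _ Ω φ pr q hU
  obtain ⟨hinj, -, hA⟩ := hEt M P Ω φ pr q hU
  set w : Y → ENNReal := fun p => ENNReal.ofReal (Real.exp (2 * φ p.1)) with hw
  have hYo : IsOpen (YO Ω) := hU.opn.preimage continuous_fst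
  have hloc : ∀ b ∈ YO Ω, ∀ b' ∈ YO Ω, q b = q b' → ∃ (U V : Set Y) (A : Y → Y), IsOpen U ∧
      IsOpen V ∧ b ∈ U ∧ b' ∈ V ∧ ContinuousOn A U ∧ (∀ y ∈ U, A y ∈ V ∧ q (A y) = q y) ∧
      InjOn q V ∧ ∀ C : Set Y, MeasurableSet C → C ⊆ U → MeasurableSet (A '' C) ∧
        ((volume : Measure Y).withDensity ((YO Ω).indicator w)) (A '' C) =
          ((volume : Measure Y).withDensity ((YO Ω).indicator w)) C := by
    intro z hz z' hz' hzz
    obtain ⟨U, A, hUo, hzU, hUY, hAs, hAz, hAy⟩ := hA z hz z' hz' hzz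
    obtain ⟨r', hr', hb', hi'⟩ := hinj z' hz'
    obtain ⟨r'', hr'', hb'', hi''⟩ := hinj z hz
    have hs1 : U ∩ Metric.ball z r'' ⊆ U := inter_subset_left
    have hs2 : U ∩ Metric.ball z r'' ⊆ Metric.ball z r'' := inter_subset_right
    have hUo' : IsOpen ((U ∩ Metric.ball z r'') ∩ A ⁻¹' (Metric.ball z' r')) :=
      (hAs.continuousOn.mono hs1).isOpen_inter_preimage (hUo.inter Metric.isOpen_ball)
        Metric.isOpen_ball
    refine ⟨(U ∩ Metric.ball z r'') ∩ A ⁻¹' (Metric.ball z' r'), Metric.ball z' r', A, hUo',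
      Metric.isOpen_ball, ⟨⟨hzU, Metric.mem_ball_self hr''⟩, ?_⟩, Metric.mem_ball_self hr',
      hAs.continuousOn.mono (inter_subset_left.trans hs1),
      fun y hy => ⟨hy.2, (hAy y (hs1 hy.1)).2.1⟩, hi', ?_⟩
    · rw [mem_preimage, hAz]
      exact Metric.mem_ball_self hr'
    · have hhaar : (volume : Measure Y).IsAddHaarMeasure :=
        MeasureTheory.Measure.prod.instIsAddHaarMeasure (volume : Measure ℂ) (volume : Measure ℝ)
      refine jac_image (volume : Measure Y) (YO Ω) _ hYo.measurableSet w A (fun y => fderiv ℝ A y)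
        (inter_subset_left.trans (hs1.trans hUY)) (fun y hy => (hAy y (hs1 hy.1)).1) ?_ ?_ ?_
      · intro y hy
        have h1 : ContDiffAt ℝ ∞ A y := hAs.contDiffAt (hUo.mem_nhds (hs1 hy.1))
        exact (h1.differentiableAt (by simp)).hasFDerivAt
      · intro y hy y' hy' hyy
        apply hi'' (hs2 hy.1) (hs2 hy'.1)
        rw [← (hAy y (hs1 hy.1)).2.1, ← (hAy y' (hs1 hy'.1)).2.1, hyy]
      · intro y hy
        obtain ⟨-, -, -, h3, h4, h5⟩ := hAy y (hs1 hy.1)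
        have h6 := det_frame φ y (A y) (fderiv ℝ A y) h3 h4 h5
        rw [hw]
        simp only
        have h7 : (fderiv ℝ A y).det = Real.exp (2 * φ y.1) * Real.exp (-(2 * φ (A y).1)) := by
          rw [← h6, Real.exp_neg]
          field_simp
        rw [← ENNReal.ofReal_mul (abs_nonneg _), h7, abs_of_nonneg (by positivity), mul_assoc,
          ← Real.exp_add, neg_add_cancel, Real.exp_zero, mul_one]
  obtain ⟨m, hm⟩ := hE Y P (YO Ω) q ((volume : Measure Y).withDensity ((YO Ω).indicator w)) hYo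
    hU.contq hU.surjq (fun p hp => by
      obtain ⟨r, hr, hb, hi⟩ := hinj p hp
      exact ⟨Metric.ball p r, Metric.isOpen_ball, Metric.mem_ball_self hr, hb, hi⟩)
    (fun B B' hB hB' hBO hBO' hi hi' himg => glue (YO Ω) q _ hloc B B' hB hB' hBO hBO' hi hi' himg)
  refine ⟨m, fun B hB hBO hi => ?_⟩
  rw [hm B hB hBO hi, dens_apply volume (YO Ω) w B hB hBO]

end Pool.Agent.Y80.EX
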